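import Pool.Agent.Lib.MP_39df77_nt.Part07
import Pool.Agent.Lib.MP_39df77_nt.Part13
import Pool.Agent.Lib.MP_39df77_nt.Part16
import Pool.Agent.Lib.MP_39df77_nt.Part03
import Pool.Agent.Lib.MP_39df77_nt.Part09
import Pool.Agent.Lib.MP_39df77_nt.Part12
import Pool.Agent.Lib.MP_39df77_nt.Part11
import Pool.Agent.Lib.MP_39df77_nt.Part10
import Pool.Agent.Lib.MP_39df77_nt.Part21
import Pool.Agent.Lib.MP_39df77_nt.Part15
import Pool.Agent.Lib.MP_39df77_nt.Part04
import Pool.Agent.Lib.MP_39df77_nt.Part22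
import Pool.Agent.Lib.MP_39df77_nt.Part17
import Pool.Agent.Lib.MP_39df77_nt.Part24
import Pool.Agent.Lib.MP_39df77_nt.Part23
import Pool.Agent.Lib.MP_39df77_nt.Part25
import Pool.Agent.Lib.MP_39df77_nt.Part20
import Pool.Agent.Lib.MP_39df77_nt.Part14
import Pool.Agent.Lib.MP_39df77_nt.Part26
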